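import Mathlib
import Pool.Prelude.Def_F_c31e40fa
import Pool.Agent.Y298.SH.Final

/-!
# Density of hyperbolicity with the natural power, uniformly at all parameters whose critical orbit
is uniformly expanding, in every degree

Let `d ≥ 2`. The parameters `c₁` of the Multibrot set `M_d` for which the derivatives of the iterates
of `z ^ d + c₁` at all points of the orbit of the critical value grow at least like `lam ^ n / C₁`
form a compact set `E = E(C₁, lam)`; the critical point is not recurrent at these parameters, and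
its orbit is in general infinite. With one constant `C` for all of `E`, every `c ∈ M_d` satisfies:

* the area of the filled Julia set of `z ^ d + c` is at most `C dist(c, E) ^ (2 / (d - 1))`;
* within `C dist(c, E) ^ (d / (d - 1))` of `c` there is a superattracting parameter, whose period is
  at most `C (1 + |log dist(c, E)|) ^ 2`, and also a parameter outside of `M_d`;
* a component of the interior of `M_d` (hyperbolic or not) or an open set of parameters without
  attracting cycles contains no holomorphic disc through `c` of larger size.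
-/

set_option autoImplicit false

open MeasureTheory Filter Metric

namespace Pool.Agent.Results.MP_c35c17_an.ExpandingCriticalOrbit

/-- The polynomial `z ^ d + c`. -/
def f (d : ℕ) (c : ℂ) : ℂ → ℂ := fun z => z ^ d + c

/-- The filled Julia set of `z ^ d + c`. -/
def filledJulia (d : ℕ) (c : ℂ) : Set ℂ :=
  {z | ¬ Tendsto (fun n => (f d c)^[n] z) atTop (Bornology.cobounded ℂ)}

/-- `c` lies in the Multibrot set of degree `d`, and the orbit of the critical value `c` of `z ^ d + c`
is uniformly expanding, with explicit constants: at every point `f^j (c)` of this orbit the derivatives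
of the iterates satisfy `|(f^n)' (f^j (c))| ≥ lam ^ n / C₁`. -/
def Expanding (d : ℕ) (C₁ lam : ℝ) (c : ℂ) : Prop :=
  c ∈ N62a1eb23.multibrotSet d ∧
    ∀ j n : ℕ, lam ^ n ≤ C₁ * ‖deriv ((f d c)^[n]) ((f d c)^[j] c)‖

/-- Density of hyperbolicity with the natural power `d / (d - 1)` of the distance, uniformly at all
parameters with a uniformly expanding critical orbit, in every degree. -/
theorem result (d : ℕ) (hd : 2 ≤ d) (C₁ lam : ℝ) (hlam : 1 < lam) :
    ∃ C : ℝ, 0 < C ∧ ∀ c₁ : ℂ, Expanding d C₁ lam c₁ →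
      ∀ c ∈ N62a1eb23.multibrotSet d, c ≠ c₁ →
      -- (1) the area of the filled Julia set
      volume (filledJulia d c) ≤ ENNReal.ofReal (C * ‖c - c₁‖ ^ (2 / ((d : ℝ) - 1))) ∧
      -- (2) the nearest superattracting parameter, with a bound of the period
      (∃ c' : ℂ, ‖c' - c‖ ≤ C * ‖c - c₁‖ ^ ((d : ℝ) / ((d : ℝ) - 1)) ∧ ∃ p : ℕ, 1 ≤ p ∧
        (f d c')^[p] 0 = 0 ∧ N62a1eb23.IsAttractingCycle (f d c') p 0 ∧
        (p : ℝ) ≤ C * (1 + |Real.log ‖c - c₁‖|) ^ 2) ∧
      -- (3) the nearest parameter outside of the Multibrot set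
      (∃ c' : ℂ, ‖c' - c‖ ≤ C * ‖c - c₁‖ ^ ((d : ℝ) / ((d : ℝ) - 1)) ∧
        c' ∉ N62a1eb23.multibrotSet d) ∧
      -- (4) holomorphic discs through `c` in a connected open set `V` of parameters which has no
      -- attracting cycles or is contained in the Multibrot set
      (∀ V : Set ℂ, IsOpen V → IsPreconnected V →
        ((∀ b ∈ V, ¬ ∃ m z, N62a1eb23.IsAttractingCycle (f d b) m z) ∨
          V ⊆ N62a1eb23.multibrotSet d) →
        ∀ γ : ℂ → ℂ, DifferentiableOn ℂ γ (ball 0 1) → (∀ t ∈ ball (0 : ℂ) 1, γ t ∈ V) → γ 0 = c →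
          ‖deriv γ 0‖ ≤ C * ‖c - c₁‖ ^ ((d : ℝ) / ((d : ℝ) - 1))) := by
  obtain ⟨M, hM⟩ : ∃ M : ℕ, 2 * C₁ ≤ lam ^ M := by
    obtain ⟨M, hM⟩ := pow_unbounded_of_one_lt (2 * C₁) hlam
    exact ⟨M, hM.le⟩
  obtain ⟨C, hC, H⟩ := Pool.Agent.Y298.SH.upper_uniform hd M
  refine ⟨2 * C, by positivity, fun c₁ h₁ c hc hcc => ?_⟩
  have hC₁ : 0 < C₁ := by
    have h1 := h₁.2 0 0
    simp only [pow_zero, Function.iterate_zero, deriv_id, norm_one, mul_one] at h1
    linarith
  have hsh : Pool.Agent.Y298.SH.SHyp d M c₁ := by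
    refine Pool.Agent.Y298.SH.shyp_of_mem hd h₁.1 fun j => ?_
    have h1 : lam ^ M ≤ C₁ * ‖deriv ((f d c₁)^[M]) ((f d c₁)^[j] c₁)‖ := h₁.2 j M
    have h2 : C₁ * 2 ≤ C₁ * ‖deriv ((f d c₁)^[M]) ((f d c₁)^[j] c₁)‖ := by linarith
    exact le_of_mul_le_mul_left h2 hC₁
  obtain ⟨h1, ⟨c', h2, p, hp, h3, h4, h5⟩, h6⟩ := H c₁ hsh c hc hcc
  have hx : 0 < ‖c - c₁‖ := norm_pos_iff.2 (sub_ne_zero.2 hcc)
  have hq : 0 ≤ ‖c - c₁‖ ^ (2 / ((d : ℝ) - 1)) := Real.rpow_nonneg hx.le _
  have hq' : 0 < ‖c - c₁‖ ^ ((d : ℝ) / ((d : ℝ) - 1)) := Real.rpow_pos_of_pos hx _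
  set δ : ℝ := ‖c - c₁‖ ^ ((d : ℝ) / ((d : ℝ) - 1)) with hδ
  have hCδ : 0 < C * δ := mul_pos hC hq'
  refine ⟨h1.trans (ENNReal.ofReal_le_ofReal ?_), ⟨c', ?_, p, hp, h3, h4, h5.trans ?_⟩, ?_, ?_⟩
  · nlinarith
  · nlinarith
  · have h7 : 0 ≤ C * (1 + |Real.log ‖c - c₁‖|) ^ 2 := by positivity
    nlinarith
  · by_contra hcon
    push Not at hcon
    have hsub : ball c (2 * C * δ) ⊆ N62a1eb23.multibrotSet d := by
      intro b hb
      apply hcon b
      rw [← dist_eq_norm]
      exact (mem_ball.1 hb).le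
    have h7 := h6 (ball c (2 * C * δ)) isOpen_ball (convex_ball c _).isPreconnected (Or.inr hsub)
      (fun t => c + (2 * C * δ : ℝ) * t) (by fun_prop) (fun t ht => by
        rw [mem_ball_zero_iff] at ht
        rw [mem_ball, dist_eq_norm]
        have h8 : c + ((2 * C * δ : ℝ) : ℂ) * t - c = ((2 * C * δ : ℝ) : ℂ) * t := by ring
        rw [h8, norm_mul, Complex.norm_real, Real.norm_of_nonneg (by linarith)]
        have h9 : 0 < 2 * C * δ := by linarith
        nlinarith [norm_nonneg t]) (by simp)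
    have h8 : deriv (fun t : ℂ => c + ((2 * C * δ : ℝ) : ℂ) * t) 0 = ((2 * C * δ : ℝ) : ℂ) := by
      have h10 : HasDerivAt (fun t : ℂ => c + ((2 * C * δ : ℝ) : ℂ) * t)
          (((2 * C * δ : ℝ) : ℂ) * 1) 0 := ((hasDerivAt_id (0 : ℂ)).const_mul _).const_add c
      rw [h10.deriv, mul_one]
    rw [h8, Complex.norm_real, Real.norm_of_nonneg (by linarith)] at h7
    linarith
  · intro V hV hVc hVV γ hγ hγV hγ0
    have h7 := h6 V hV hVc hVV γ hγ hγV hγ0
    nlinarith

end Pool.Agent.Results.MP_c35c17_an.ExpandingCriticalOrbit
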