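import Mathlib
import Pool.Prelude.Def_F_c31e40fa
import Pool.Agent.T2H09.LU.Str

/-!
# Exponential growth at one time gives exponentially near attracting parameters

Let `f_c (z) = z ^ n + c` with `c` in the Multibrot set `M_n`, let `M ≥ 2` be ONE time and put
`L = log |(f_c ^ M)' (c)|`.  If `L ^ 3 ≥ C M ^ 2 log M` then the distance of `c` to the set `H_n` of
the parameters with an attracting cycle is at most `exp (- ε L ^ 2 / M)`.  The constants `C, ε > 0`
depend only on `n`.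

In particular, if `|(f_c ^ M)' (c)| ≥ exp (χ M)` for one `M` with `χ ^ 3 M ≥ C log M`, then there
are parameters with an attracting cycle at a distance exponentially small in `M`,
`dist (c, H_n) ≤ exp (- ε χ ^ 2 M)`, uniformly over the whole Multibrot set.
-/

set_option autoImplicit false

open Filter Metric

namespace Pool.Agent.Results.MP_c35c17_an.ExponentialProximity

/-- The map `z ↦ z ^ n + c`. -/
def f (n : ℕ) (c : ℂ) : ℂ → ℂ := fun z => z ^ n + c

/-- The parameters `c` for which `z ^ n + c` has an attracting cycle. -/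
def hyp (n : ℕ) : Set ℂ := {c | ∃ m z, N62a1eb23.IsAttractingCycle (f n c) m z}

/-- The distance to the parameters with an attracting cycle, against the derivative of one iterate at
the critical value. -/
theorem result (n : ℕ) (hn : 2 ≤ n) : ∃ C ε : ℝ, 0 < C ∧ 0 < ε ∧
    -- (1) the inequality
    (∀ c ∈ N62a1eb23.multibrotSet n, ∀ M : ℕ, 2 ≤ M →
      C * M ^ 2 * Real.log M ≤ Real.log ‖deriv (f n c)^[M] c‖ ^ 3 →
      infDist c (hyp n) ≤ Real.exp (-(ε * Real.log ‖deriv (f n c)^[M] c‖ ^ 2 / M))) ∧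
    -- (2) exponential growth up to one time
    (∀ c ∈ N62a1eb23.multibrotSet n, ∀ M : ℕ, 2 ≤ M → ∀ χ : ℝ, 0 ≤ χ →
      C * Real.log M ≤ χ ^ 3 * M → Real.exp (χ * M) ≤ ‖deriv (f n c)^[M] c‖ →
      infDist c (hyp n) ≤ Real.exp (-(ε * χ ^ 2 * M))) := by
  obtain ⟨C, ε, hC, hε, h⟩ := Pool.Agent.T2H09.LU.strong hn
  have hP : ∀ c k, deriv (f n c)^[k] c = Pool.Agent.W746.LD.P n c c k := fun c k =>
    (Pool.Agent.W746.LD.hasDerivAt_orb c k).deriv
  have h1 : ∀ c ∈ N62a1eb23.multibrotSet n, ∀ M : ℕ, 2 ≤ M →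
      C * M ^ 2 * Real.log M ≤ Real.log ‖deriv (f n c)^[M] c‖ ^ 3 →
      infDist c (hyp n) ≤ Real.exp (-(ε * Real.log ‖deriv (f n c)^[M] c‖ ^ 2 / M)) := by
    intro c hc M hM hyp
    rw [hP] at hyp ⊢
    exact h c hc M hM hyp
  refine ⟨C, ε, hC, hε, h1, ?_⟩
  intro c hc M hM χ hχ hb hg
  have hM0 : (0 : ℝ) < M := by exact_mod_cast (by omega : 0 < M)
  have hL : χ * M ≤ Real.log ‖deriv (f n c)^[M] c‖ := by
    have h2 := Real.log_le_log (Real.exp_pos _) hg
    rwa [Real.log_exp] at h2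
  have hχM : 0 ≤ χ * M := by positivity
  have h3 : C * M ^ 2 * Real.log M ≤ Real.log ‖deriv (f n c)^[M] c‖ ^ 3 := by
    calc C * M ^ 2 * Real.log M = (C * Real.log M) * M ^ 2 := by ring
      _ ≤ (χ ^ 3 * M) * M ^ 2 := by gcongr
      _ = (χ * M) ^ 3 := by ring
      _ ≤ _ := by gcongr
  refine (h1 c hc M hM h3).trans (Real.exp_le_exp.mpr (neg_le_neg ?_))
  rw [le_div_iff₀ hM0]
  calc ε * χ ^ 2 * M * M = ε * (χ * M) ^ 2 := by ring
    _ ≤ _ := by gcongr

end Pool.Agent.Results.MP_c35c17_an.ExponentialProximity
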