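import Pool.Agent.U427.GF.Meas

set_option autoImplicit false

/-!
# A potential-theoretic criterion for the density of hyperbolicity in the Multibrot sets

Let `f_c (z) = z ^ n + c` with `c` in the Multibrot set `M_n`, let
`G_c (z) = lim n ^ (-k) log⁺ |f_c ^ k (z)|` be the Green function of the filled Julia set, and let
`H_n` be the set of the parameters with an attracting cycle.

Suppose that `c` is not in the closure of `H_n` (the question is whether such a `c` exists). Then the
Green function is extremely flat at the critical value and at every point `z` whose orbit meets the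
orbit of the critical value, for example at the critical point and at all its preimages of all
orders: near `z`

`G_c (y) ≤ exp (-exp (ε √(log (1 / |y - z|))))`,

which is smaller than every power of `|y - z|`; here `ε > 0` depends only on `n`. The discs of radius
`ρ` about these points carry at most the proportion `exp (-exp (ε √(log (1 / ρ))))` of the preimages
`f_c ^ (-N) (a)` of every escaping point `a` for large `N`, that is, their harmonic measure has such a
bound, and the disc about the critical value contains at most this proportion of the periodic points.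

Conversely: if the Green function is not that flat at one such point, for instance if
`G_c (y) ≥ |y - c| ^ A` for a fixed `A` and some points `y` arbitrarily near `c`, then `c` is a limit
of parameters with attracting cycles. There is a uniform version for all `c ∈ M_n`, with one point
`y` and one time `N`, and with a bound for the period of the attracting cycle: if
`|y - c| ≤ exp (-C log² N)` and `G_c (y) > 3 n ^ (-N)`, then at a distance at most
`|y - c| ^ (ε / log N)` from `c` there is a parameter with an attracting cycle of period at most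
`N + 2`.

The proof combines the separation theorem `Pool.Agent.T2H09.LW.sepV2` of the library (orbits which
start within `exp (-C log² N)` of the critical value do not separate up to the time `N`, unless there
are attracting parameters nearby) with the potential theory of `f_c`.
-/

open Filter Topology N62a1eb23

namespace Pool.Agent.Results.MP_c35c17_an.GreenFunctionCriterion

open Pool.Agent.U427.GF

/-- **A potential-theoretic criterion for the density of hyperbolicity.** Let `n ≥ 2`.

(0) The limit which defines the Green function exists.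

There are `C, ε > 0`, which depend only on `n`, such that for all `c` in the Multibrot set `M_n`:

(1) if `N ≥ 2`, `|y - c| ≤ exp (-C log² N)` and `G_c (y) > 3 n ^ (-N)`, then there is a parameter
within `|y - c| ^ (ε / log N)` of `c` with an attracting cycle of period at most `N + 2`;

(2) if there are `m`, `j` and `z` with `f_c ^ m (z) = f_c ^ j (c)` and points `y ≠ z` arbitrarily near
`z` with `G_c (y) > exp (-exp (ε √(log (1 / |y - z|))))`, then `c` is in the closure of `H_n`;

and if `c` is not in the closure of `H_n`, then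

(3) for all `z`, `m`, `j` with `f_c ^ m (z) = f_c ^ j (c)`, for all small `ρ > 0`, for every `a` whose
orbit leaves the disc `|z| ≤ 2`, for all large `N`, the equation `f_c ^ N (w) = a` has at most
`n ^ N exp (-exp (ε √(log (1 / ρ))))` solutions in the disc with centre `z` and radius `ρ`;

(4) for all small `ρ > 0`, for all large `N`, the equation `f_c ^ N (w) = w` has at most
`n ^ N exp (-exp (ε √(log (1 / ρ))))` solutions in the disc with centre `c` and radius `ρ`. -/
theorem result (n : ℕ) (hn : 2 ≤ n) :
    (∀ c z : ℂ, Tendsto (fun k : ℕ => Real.log (max 1 ‖(f n c)^[k] z‖) / (n : ℝ) ^ k) atTop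
      (𝓝 (green n c z))) ∧
    ∃ C ε : ℝ, 0 < C ∧ 0 < ε ∧ ∀ c ∈ multibrotSet n,
      -- (1) the uniform law
      (∀ N : ℕ, 2 ≤ N → ∀ y : ℂ, ‖y - c‖ ≤ Real.exp (-(C * Real.log N ^ 2)) →
        3 / (n : ℝ) ^ N < green n c y → Near n (N + 2) c (‖y - c‖ ^ (ε / Real.log N))) ∧
      -- (2) the criterion
      (∀ (z : ℂ) (m j : ℕ), (f n c)^[m] z = (f n c)^[j] c →
        (∃ᶠ y in 𝓝[≠] z, Real.exp (-Real.exp (ε * √(Real.log (1 / ‖y - z‖)))) < green n c y) →
        c ∈ closure (hyp n)) ∧
      (c ∉ closure (hyp n) →
        -- (3) the preimages of escaping points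
        (∀ (z : ℂ) (m j : ℕ), (f n c)^[m] z = (f n c)^[j] c →
          ∀ᶠ ρ : ℝ in 𝓝[>] 0, ∀ a : ℂ, (∃ k, 2 < ‖(f n c)^[k] a‖) → ∀ᶠ N : ℕ in atTop,
            (Set.ncard {w : ℂ | ‖w - z‖ < ρ ∧ (f n c)^[N] w = a} : ℝ) ≤
              (n : ℝ) ^ N * Real.exp (-Real.exp (ε * √(Real.log (1 / ρ))))) ∧
        -- (4) the periodic points
        (∀ᶠ ρ : ℝ in 𝓝[>] 0, ∀ᶠ N : ℕ in atTop,
            (Set.ncard {w : ℂ | ‖w - c‖ < ρ ∧ (f n c)^[N] w = w} : ℝ) ≤
              (n : ℝ) ^ N * Real.exp (-Real.exp (ε * √(Real.log (1 / ρ)))))) := by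
  obtain ⟨C, ε₁, hC, hε₁, h1⟩ := uniform hn
  obtain ⟨ε₂, hε₂, h2⟩ := flat_all hn
  obtain ⟨ε₃, hε₃, h3⟩ := preimages hn
  obtain ⟨ε₄, hε₄, h4⟩ := periodic hn
  set ε : ℝ := min (min ε₁ ε₂) (min ε₃ ε₄) with hε
  have hε0 : 0 < ε := lt_min (lt_min hε₁ hε₂) (lt_min hε₃ hε₄)
  have e1 : ε ≤ ε₁ := (min_le_left _ _).trans (min_le_left _ _)
  have e2 : ε ≤ ε₂ := (min_le_left _ _).trans (min_le_right _ _)
  have e3 : ε ≤ ε₃ := (min_le_right _ _).trans (min_le_left _ _)
  have e4 : ε ≤ ε₄ := (min_le_right _ _).trans (min_le_right _ _)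
  have mono : ∀ ε' ρ : ℝ, ε ≤ ε' → tiny ε' ρ ≤ Real.exp (-Real.exp (ε * √(Real.log (1 / ρ)))) := by
    intro ε' ρ he
    unfold tiny
    apply Real.exp_le_exp.mpr
    apply neg_le_neg
    apply Real.exp_le_exp.mpr
    exact mul_le_mul_of_nonneg_right he (Real.sqrt_nonneg _)
  refine ⟨fun c z => tendsto_green hn z, C, ε, hC, hε0, fun c hc => ⟨?_, ?_, fun hcl => ⟨?_, ?_⟩⟩⟩
  · intro N hN y hy hg
    have hN1 : (1 : ℝ) < N := by exact_mod_cast (by omega : 1 < N)
    have hl : 0 < Real.log N := Real.log_pos hN1
    refine Pool.Agent.T2H09.LV.Near.mono (h1 c hc N hN y hy hg) le_rfl ?_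
    have hy1 : ‖y - c‖ ≤ 1 := by
      refine hy.trans ?_
      rw [Real.exp_le_one_iff]
      have : 0 ≤ C * Real.log N ^ 2 := by positivity
      linarith
    rcases (norm_nonneg (y - c)).eq_or_lt with h0 | h0
    · rw [← h0, Real.zero_rpow (by positivity), Real.zero_rpow (by positivity)]
    · apply Real.rpow_le_rpow_of_exponent_ge h0 hy1
      gcongr
  · intro z m j hz hfr
    by_contra hcl
    have h5 := h2 c hc hcl z m j hz
    have h6 : Tendsto (fun y : ℂ => ‖y - z‖) (𝓝[≠] z) (𝓝[>] 0) := by
      rw [tendsto_nhdsWithin_iff]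
      constructor
      · have h8 : Tendsto (fun y : ℂ => ‖y - z‖) (𝓝 z) (𝓝 ‖z - z‖) :=
          (continuous_id.sub continuous_const).norm.tendsto z
        rw [sub_self, norm_zero] at h8
        exact h8.mono_left nhdsWithin_le_nhds
      · filter_upwards [self_mem_nhdsWithin] with y hy
        exact norm_pos_iff.mpr (sub_ne_zero.mpr hy)
    have h7 := h6.eventually h5
    obtain ⟨y, hy1, hy2⟩ := (hfr.and_eventually h7).exists
    exact absurd ((hy2 y le_rfl).trans (mono ε₂ _ e2)) (not_le.mpr hy1)
  · intro z m j hz
    filter_upwards [h3 c hc hcl z m j hz] with ρ hρ a ha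
    filter_upwards [hρ a ha] with N hN
    refine hN.trans ?_
    have := mono ε₃ ρ e3
    gcongr
  · filter_upwards [h4 c hc hcl] with ρ hρ
    filter_upwards [hρ] with N hN
    refine hN.trans ?_
    have := mono ε₄ ρ e4
    gcongr

end Pool.Agent.Results.MP_c35c17_an.GreenFunctionCriterion
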