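import Pool.Prelude.Def_F_c31e40fa
import Pool.Agent.U334.LW.Main
import Pool.Agent.U334.LW.Supp

/-!
# MP_c35c17_an: how many superattracting parameters are near a given parameter of a Multibrot set

Let `d ≥ 2`, `f_c(z) = z ^ d + c`, let `M_d` be the Multibrot set and `ψ` the conformal map from the
exterior of the unit disc onto the complement of `M_d` (`IsExteriorMap`). The harmonic measure
`harm ψ c₀ r` of the disc `D(c₀, r)` is the proportion of the angles whose parameter rays land in the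
disc. The parameters `c` with `f_c^n(0) = 0` are the centres of the hyperbolic components of period
dividing `n`; there are `d ^ (n - 1)` of them (`centres`), and `exactCentres` are those of exact
period `n`.

**Theorem.** There is an absolute constant `K` such that for all `d ≥ 2`, all `c₀` in `M_d`, all
`n ≥ 1`, `r > 0` and `0 < δ ≤ 1`:
1. `#centres(D(c₀, r)) ≤ d ^ (n - 1) harm(D(c₀, (1 + δ) r)) + K n log d / δ` and
   `d ^ (n - 1) harm(D(c₀, r)) ≤ #centres(D(c₀, (1 + δ) r)) + K n log d / δ`;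
2. `d ^ (n - 1) harm(D(c₀, r)) ≤ #exactCentres(D(c₀, (1 + δ) r)) + d ^ (n / 2) + K n log d / δ`;
3. if `harm(D(c₀, r / 2)) > K d ^ (1 - n / 2)` then there is a parameter with a superattracting cycle
   of exact period `n` at distance less than `r` from `c₀`;
4. `harm(D(c₀, r)) > 0` for all `r > 0` if `c₀` is on the boundary of `M_d`.
So the number of attracting parameters of period `n` is given by the harmonic measure at all places
and at all scales down to the scale where only about `n` of the `d ^ (n - 1)` centres are in the disc,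
with an error which does not depend on the radius: hyperbolicity is dense near `c₀` at the rate which
is given by the decay of the harmonic measure of small discs.

The law 1 is the theorem `Pool.Agent.R240.LL.law` of the starting library, which was used in the
starting files (`MP_c6f924_an.SparseCentres`, `MP_c35c17_an.GoodBoundaryParameters`) and not stated
there; 2, 3 and 4 are in `Pool.Agent.U334.LW`.
-/

set_option autoImplicit false

namespace Pool.Agent.Results.MP_c35c17_an.LocalLaw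

open Complex Metric Set Filter Topology MeasureTheory
open N62a1eb23
open Pool.Agent.H713R2 (IsExteriorMap)

/-- The parameters `c` with `f_c^n(0) = 0` and `|c - c₀| < r`. -/
def centres (d n : ℕ) (c₀ : ℂ) (r : ℝ) : Set ℂ :=
  {c | ‖c - c₀‖ < r ∧ (fun z : ℂ => z ^ d + c)^[n] 0 = 0}

/-- The parameters `c` with `|c - c₀| < r` for which `0` is a periodic point of `f_c` of exact period
`n`. -/
def exactCentres (d n : ℕ) (c₀ : ℂ) (r : ℝ) : Set ℂ :=
  {c | ‖c - c₀‖ < r ∧ (fun z : ℂ => z ^ d + c)^[n] 0 = 0 ∧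
    ∀ m : ℕ, 0 < m → m < n → (fun z : ℂ => z ^ d + c)^[m] 0 ≠ 0}

/-- The angles in `(0, 2 π]` of the parameter rays which land at a point at distance less than `r`
from `c`. -/
def angles (ψ : ℂ → ℂ) (c : ℂ) (r : ℝ) : Set ℝ :=
  {θ | θ ∈ Ioc 0 (2 * Real.pi) ∧ ∃ ζ ∈ ball c r,
    Tendsto (fun ρ : ℝ => ψ (ρ * exp (θ * I))) (𝓝[>] 1) (𝓝 ζ)}

/-- The harmonic measure of the disc with centre `c` and radius `r`. -/
noncomputable def harm (ψ : ℂ → ℂ) (c : ℂ) (r : ℝ) : ℝ :=
  (volume (angles ψ c r)).toReal / (2 * Real.pi)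

/-- **Local law for the superattracting parameters.** -/
theorem result :
    (∀ d : ℕ, 2 ≤ d → ∃ ψ : ℂ → ℂ, IsExteriorMap (multibrotSet d) ψ) ∧
    ∃ K : ℝ, 0 < K ∧ ∀ (d : ℕ) (ψ : ℂ → ℂ), 2 ≤ d → IsExteriorMap (multibrotSet d) ψ →
      (∀ (c₀ : ℂ) (n : ℕ) (r δ : ℝ), c₀ ∈ multibrotSet d → 1 ≤ n → 0 < r → 0 < δ → δ ≤ 1 →
        ((centres d n c₀ r).ncard : ℝ) ≤
          d ^ (n - 1) * harm ψ c₀ ((1 + δ) * r) + K * n * Real.log d / δ ∧
        d ^ (n - 1) * harm ψ c₀ r ≤
          (centres d n c₀ ((1 + δ) * r)).ncard + K * n * Real.log d / δ ∧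
        d ^ (n - 1) * harm ψ c₀ r ≤
          (exactCentres d n c₀ ((1 + δ) * r)).ncard + d ^ (n / 2) + K * n * Real.log d / δ) ∧
      (∀ (c₀ : ℂ) (n : ℕ) (r : ℝ), c₀ ∈ multibrotSet d → 1 ≤ n → 0 < r →
        K * (d : ℝ) ^ (1 - (n : ℝ) / 2) < harm ψ c₀ (r / 2) →
        (exactCentres d n c₀ r).Nonempty) ∧
      ∀ (c₀ : ℂ) (r : ℝ), c₀ ∈ frontier (multibrotSet d) → 0 < r → 0 < harm ψ c₀ r := by
  have hKL := Pool.Agent.R240.LL.KL_pos
  refine ⟨fun d hd => ?_, 1 + 2 * Pool.Agent.R240.LL.KL, by positivity, fun d ψ hd hψ =>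
    ⟨fun c₀ n r δ hc₀ hn hr hδ hδ1 => ?_, fun c₀ n r hc₀ hn hr h => ?_, fun c₀ r hc₀ hr => ?_⟩⟩
  · obtain ⟨β, hβ⟩ := Pool.Agent.H713R2.exists_beta (d := d) hd
    exact ⟨_, Pool.Agent.H713R2.exteriorMap_of_beta hβ⟩
  · have h1 := Pool.Agent.U334.LW.law' hd hψ hc₀ hn hr hδ hδ1
    have h2 := Pool.Agent.U334.LW.law_exact hd hψ hc₀ hn hr hδ hδ1
    have hd1 : (1 : ℝ) ≤ d := by exact_mod_cast (by omega : 1 ≤ d)
    have h3 : Pool.Agent.R240.LL.KL * n * Real.log d / δ ≤
        (1 + 2 * Pool.Agent.R240.LL.KL) * n * Real.log d / δ := by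
      have := Real.log_nonneg hd1
      gcongr
      linarith
    refine ⟨h1.1.trans ?_, h1.2.trans ?_, h2.trans ?_⟩
    · show _ ≤ _ * harm ψ c₀ ((1 + δ) * r) + _
      unfold harm angles
      exact add_le_add le_rfl h3
    · exact add_le_add le_rfl h3
    · exact add_le_add le_rfl h3
  · exact Pool.Agent.U334.LW.exists_exact hd hψ hc₀ hn hr h
  · unfold harm
    have := Pool.Agent.U334.LW.vol_pos hd hψ hc₀ hr
    have hpi := Real.pi_pos
    exact div_pos this (by positivity)

end Pool.Agent.Results.MP_c35c17_an.LocalLaw
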